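import Pool.Agent.Helper68.DS.Goals2

set_option autoImplicit false

/-!
# Packet DS INV: maxima of invariant supermodular functions
-/

namespace Pool.Agent.Helper29.DS

open Pool.Agent.Helper68.DS

theorem INV : INV_stmt := by
  intro α _ _ f Φ hsup htr hinv A
  obtain ⟨B, hB⟩ := Finite.exists_max f
  obtain ⟨T, hT, hTmax⟩ := Finset.exists_max_image
    ((Finset.univ : Finset (Finset α)).filter fun T => f T = f B) Finset.card
    ⟨B, Finset.mem_filter.2 ⟨Finset.mem_univ _, rfl⟩⟩
  rw [Finset.mem_filter] at hT
  have hTB : f T = f B := hT.2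
  have hsub : ∀ D : Finset α, f D = f B → D ⊆ T := by
    intro D hD
    have h1 := hsup T D
    have h2 := hB (T ∪ D)
    have h3 := hB (T ∩ D)
    have h4 : f (T ∪ D) = f B := by omega
    have h5 := hTmax (T ∪ D) (Finset.mem_filter.2 ⟨Finset.mem_univ _, h4⟩)
    have h6 : T = T ∪ D := Finset.eq_of_subset_of_card_le Finset.subset_union_left h5
    rw [h6]
    exact Finset.subset_union_right
  have hAT : f A ≤ f T := by rw [hTB]; exact hB A
  rcases T.eq_empty_or_nonempty with h0 | ⟨x, hx⟩
  · rw [h0] at hAT
    exact le_max_of_le_left hAT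
  · have hu : T = Finset.univ := by
      apply Finset.eq_univ_of_forall
      intro y
      obtain ⟨σ, hσ, hxy⟩ := htr x y
      have h1 : T.map σ.toEmbedding ⊆ T := hsub _ (by rw [hinv σ hσ T]; exact hTB)
      apply h1
      rw [Finset.mem_map]
      exact ⟨x, hx, hxy⟩
    rw [hu] at hAT
    exact le_max_of_le_right hAT

end Pool.Agent.Helper29.DS
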